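import Pool.Agent.Helper647.FU.Fin
import Pool.Agent.Helper647.FU.MAFinal

set_option autoImplicit false

/-!
# MP_435463_gt: compact subspaces of `C_p(X)` for spaces `X` of countable extent

Definitions used in the statement (all from `Pool.Agent.Helper647.FU`):
* `PFA` : the proper forcing axiom, for all proper partial orders and `ℵ₁` many dense sets
  (`Proper` : for club many countable sets `N` of conditions, sets of conditions and parameters,
  every condition in `N` has an `N`-generic extension);
* `MartinAxiom` : Martin's axiom, for ccc partial orders and fewer than `𝔠` dense sets;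
* `CountableExtent X` : every closed discrete subset of `X` is countable;
* `CTight K` : countable tightness.
-/

open Set Cardinal Topology Pool.Agent.Helper647.FU

namespace Pool.Agent.Results.MP_435463_gt.FrechetUnderPFA

/-- (1) The proper forcing axiom implies that for every space `X` of countable extent every compact
subspace of `C_p(X)` is Frechet-Urysohn.
(2) Martin's axiom with the negation of the continuum hypothesis implies that for every space `X`
of countable extent every compact subspace `K` of `C_p(X)` of countable tightness is
Frechet-Urysohn, and metrizable if `K` is separable. -/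
theorem result :
    (PFA → ∀ (X : Type) [TopologicalSpace X] [T1Space X], CountableExtent X →
      ∀ K : Set (X → ℝ), IsCompact K → (∀ f ∈ K, Continuous f) → FrechetUrysohnSpace K) ∧
    (MartinAxiom → (ℵ₁ : Cardinal.{0}) < 𝔠 →
      ∀ (X : Type) [TopologicalSpace X] [T1Space X], CountableExtent X →
      ∀ K : Set (X → ℝ), IsCompact K → (∀ f ∈ K, Continuous f) → CTight K →
        FrechetUrysohnSpace K ∧
        (TopologicalSpace.SeparableSpace K → TopologicalSpace.MetrizableSpace K)) :=
  ⟨fun hPFA _ _ _ hX K hK hKc => pfa_frechet hPFA hX K hK hKc,
    fun hMA hc _ _ _ hX K hK hKc hT =>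
      ⟨((ma_frechet (MA1_of_MA hMA hc) hX K hK hKc).2).1 hT,
        fun hs => metrizable (MA1_of_MA hMA hc) hX K hK hKc hT hs⟩⟩

end Pool.Agent.Results.MP_435463_gt.FrechetUnderPFA
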